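import Pool.Agent.P.MP_fd346d_co.Powers

set_option autoImplicit false

namespace Pool.Agent.Results.MP_fd346d_co.AbsorbPow

/-- The order of `P` is the intersection of `d` linear orders on `P`. -/
def Realizes (P : Type) [PartialOrder P] (d : ℕ) : Prop :=
  ∃ r : Fin d → P → P → Prop, (∀ i, IsLinearOrder P (r i)) ∧ ∀ x y, x ≤ y ↔ ∀ i, r i x y

/-- `P` has (Dushnik-Miller) dimension `n`. -/
def HasDim (P : Type) [PartialOrder P] (n : ℕ) : Prop :=
  IsLeast {d | Realizes P d} n

/-- For every finite poset `P`, every `k` and every `n ≥ dim P + 6` there is a finite connected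
poset `Q` with `dim Q = dim (P × Q) = n` such that each further factor `Q` costs at most six
linear orders: `P × Q ^ j` and `Q ^ j` have dimension at most `n + 6 (j - 1)` for `1 ≤ j ≤ k`. -/
theorem result (P : Type) [PartialOrder P] [Finite P] [Nonempty P] (m n k : ℕ)
    (hP : HasDim P m) (hn : m + 6 ≤ n) :
    ∃ (Q : Type) (_ : PartialOrder Q), Finite Q ∧
      (SimpleGraph.fromRel fun x y : Q => x < y).Connected ∧
      HasDim Q n ∧ HasDim (P × Q) n ∧
      ∀ j, 1 ≤ j → j ≤ k → Realizes (P × (Fin j → Q)) (n + 6 * (j - 1)) ∧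
        Realizes (Fin j → Q) (n + 6 * (j - 1)) :=
  Pool.Agent.P.MP_fd346d_co.main_pow P k hP.1 hn

end Pool.Agent.Results.MP_fd346d_co.AbsorbPow
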